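import Mathlib

/-!
# The number of prime factors (package OMEGA)
-/

set_option autoImplicit false

namespace Pool.Agent.T2H12.KI

open Finset

lemma factorial_le_prod (S : Finset ℕ) (hS : ∀ x ∈ S, 1 ≤ x) : S.card.factorial ≤ ∏ x ∈ S, x := by
  induction S using Finset.induction_on_max with
  | empty => simp
  | insert m S hm ih =>
    have hmS : m ∉ S := fun h => lt_irrefl _ (hm m h)
    rw [card_insert_of_notMem hmS, prod_insert hmS, Nat.factorial_succ]
    refine Nat.mul_le_mul ?_ (ih fun x hx => hS x (mem_insert_of_mem hx))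
    have h1 : S ⊆ Icc 1 (m - 1) := fun x hx => by
      have := hm x hx
      have := hS x (mem_insert_of_mem hx)
      rw [mem_Icc]
      omega
    have h2 := card_le_card h1
    rw [Nat.card_Icc] at h2
    have h3 := hS m (mem_insert_self _ _)
    omega

/-- the number of prime factors -/
theorem omega_le : ∃ C₁ : ℝ, 0 < C₁ ∧ ∀ (N : ℕ) (a : ℤ), 3 ≤ N → a ≠ 0 → a.natAbs ≤ N →
    (a.natAbs.primeFactors.card : ℝ) ≤ C₁ * (Real.log N / Real.log (Real.log N)) := by
  refine ⟨32, by norm_num, ?_⟩
  intro N a hN ha haN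
  set w : ℕ := a.natAbs.primeFactors.card with hw
  set x : ℝ := Real.log N with hx
  set y : ℝ := Real.log x with hy
  have hN' : (3 : ℝ) ≤ N := by exact_mod_cast hN
  have hx1 : 1 < x := by
    rw [hx, Real.lt_log_iff_exp_lt (by linarith)]
    exact lt_of_lt_of_le (by linarith [Real.exp_one_lt_d9]) hN'
  have hy0 : 0 < y := Real.log_pos hx1
  have hxy : 0 < x / y := by positivity
  -- the factorial
  have h1 : w.factorial ≤ N := by
    refine (factorial_le_prod _ fun p hp => (Nat.prime_of_mem_primeFactors hp).one_le).trans ?_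
    refine le_trans (Nat.le_of_dvd (Int.natAbs_pos.2 ha) (Nat.prod_primeFactors_dvd _)) haN
  rcases Nat.eq_zero_or_pos w with h0 | hwpos
  · rw [h0]
    simp only [Nat.cast_zero]
    positivity
  have hw0 : (0 : ℝ) < w := by exact_mod_cast hwpos
  have h2 : (w : ℝ) * Real.log w ≤ w + x := by
    have e1 := Real.pow_div_factorial_le_exp (w : ℝ) hw0.le w
    have e2 : (0 : ℝ) < w.factorial := by exact_mod_cast Nat.factorial_pos w
    rw [div_le_iff₀ e2] at e1
    have e3 : (w : ℝ) ^ w ≤ Real.exp w * N := by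
      refine e1.trans (mul_le_mul_of_nonneg_left ?_ (Real.exp_pos _).le)
      exact_mod_cast h1
    have e4 := Real.log_le_log (by positivity) e3
    rw [Real.log_pow, Real.log_mul (Real.exp_pos _).ne' (by positivity), Real.log_exp] at e4
    exact e4
  by_cases hc : (w : ℝ) ≤ Real.sqrt x
  · have h3 : y ≤ 2 * Real.sqrt x := by
      have e1 : y = 2 * Real.log (Real.sqrt x) := by
        rw [Real.log_sqrt (by linarith)]
        ring
      rw [e1]
      have e2 : 0 < Real.sqrt x := Real.sqrt_pos.2 (by linarith)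
      linarith [Real.log_le_sub_one_of_pos e2]
    have h4 : Real.sqrt x * Real.sqrt x = x := Real.mul_self_sqrt (by linarith)
    have h5 : Real.sqrt x ≤ 2 * (x / y) := by
      rw [mul_div_assoc', le_div_iff₀ hy0]
      nlinarith [Real.sqrt_nonneg x]
    linarith
  · push Not at hc
    have h3 : y / 2 ≤ Real.log w := by
      have e1 := Real.log_le_log (Real.sqrt_pos.2 (by linarith)) hc.le
      rw [Real.log_sqrt (by linarith)] at e1
      exact e1
    by_cases hy4 : 4 ≤ y
    · have h4 : (w : ℝ) * (y / 4) ≤ x := by nlinarith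
      have h5 : (w : ℝ) ≤ 4 * (x / y) := by
        rw [mul_div_assoc', le_div_iff₀ hy0]
        linarith
      linarith
    · push Not at hy4
      have h4 : (w : ℝ) ≤ 8 * x := by
        by_cases hw8 : (w : ℝ) ≤ 8
        · nlinarith
        · push Not at hw8
          have h5 : 2 ≤ Real.log w := by
            rw [Real.le_log_iff_exp_le hw0]
            have e1 : Real.exp 2 = Real.exp 1 * Real.exp 1 := by
              rw [← Real.exp_add]
              norm_num
            rw [e1]
            nlinarith [Real.exp_one_lt_d9, Real.exp_pos 1]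
          nlinarith
      have h5 : x ≤ 4 * (x / y) := by
        rw [mul_div_assoc', le_div_iff₀ hy0]
        nlinarith
      linarith

/-- the total number of prime factors in a large subset of an interval -/
theorem sum_omega_le {C₁ : ℝ} (hC₁ : 0 < C₁) (h : ∀ (N : ℕ) (a : ℤ), 3 ≤ N → a ≠ 0 →
    a.natAbs ≤ N → (a.natAbs.primeFactors.card : ℝ) ≤
      C₁ * (Real.log N / Real.log (Real.log N))) {c₀ : ℝ} (hc₀ : 0 < c₀) (N : ℕ) (A : Finset ℤ)
    (hN : 3 ≤ N) (hAN : ∀ a ∈ A, a ≠ 0 ∧ a.natAbs ≤ N)
    (hbig : (N : ℝ) ^ (c₀ / Real.log (Real.log N)) ≤ A.card) :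
    ∑ a ∈ A, (a.natAbs.primeFactors.card : ℝ) ≤ C₁ / c₀ * A.card * Real.log A.card := by
  have hN0 : (0 : ℝ) < N := by
    have : (3 : ℝ) ≤ N := by exact_mod_cast hN
    linarith
  have h1 : c₀ / Real.log (Real.log N) * Real.log N ≤ Real.log A.card := by
    have e1 := Real.log_le_log (Real.rpow_pos_of_pos hN0 _) hbig
    rwa [Real.log_rpow hN0] at e1
  have h2 : ∀ a ∈ A, (a.natAbs.primeFactors.card : ℝ) ≤ C₁ / c₀ * Real.log A.card := by
    intro a ha
    refine (h N a hN (hAN a ha).1 (hAN a ha).2).trans ?_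
    calc C₁ * (Real.log N / Real.log (Real.log N)) =
          C₁ / c₀ * (c₀ / Real.log (Real.log N) * Real.log N) := by
            field_simp
      _ ≤ _ := mul_le_mul_of_nonneg_left h1 (by positivity)
  refine (Finset.sum_le_card_nsmul _ _ _ h2).trans (le_of_eq ?_)
  rw [nsmul_eq_mul]
  ring

end Pool.Agent.T2H12.KI
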