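import Mathlib
import Pool.Agent.T2H12.KH.Fin

/-!
# The multiplicative rank of the popular part (package RK)
-/

set_option autoImplicit false

namespace Pool.Agent.T2H12.KI

open Finset
open scoped Classical
open Pool.Agent.Y359.PE Pool.Agent.T2H12.KF Pool.Agent.T2H12.KD Pool.Agent.T2H12.KG
open Pool.Agent.T2H12.KH

/-- the exponents at `P` determine the exponents at `Q` -/
def Dt2 (P Q : Finset ℕ) (A : Finset ℤ) : Prop :=
  P ⊆ Q ∧ ∀ x ∈ A, ∀ y ∈ A, (∀ p ∈ P, fa x p = fa y p) → ∀ q ∈ Q, fa x q = fa y q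

/-- The dimension of the space spanned by the differences of the vectors of the exponents at the
primes of `Q` of the elements of `A`. -/
noncomputable def rk (Q : Finset ℕ) (A : Finset ℤ) : ℕ :=
  Module.finrank ℚ (Submodule.span ℚ {w : Q → ℚ | ∃ x ∈ A, ∃ y ∈ A, ∀ q : Q,
    w q = (x.natAbs.factorization q : ℚ) - (y.natAbs.factorization q : ℚ)})

theorem rk_mono {Q' Q : Finset ℕ} (h : Q' ⊆ Q) (A : Finset ℤ) : rk Q' A ≤ rk Q A := by
  set f : (Q → ℚ) →ₗ[ℚ] (Q' → ℚ) := LinearMap.funLeft ℚ ℚ (fun q : Q' => (⟨q.1, h q.2⟩ : Q)) with hf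
  refine le_trans ?_ (Submodule.finrank_map_le f _)
  refine Submodule.finrank_mono ?_
  rw [Submodule.map_span]
  refine Submodule.span_mono ?_
  rintro w ⟨x, hx, y, hy, hw⟩
  refine ⟨fun q => (x.natAbs.factorization q : ℚ) - (y.natAbs.factorization q : ℚ),
    ⟨x, hx, y, hy, fun q => rfl⟩, ?_⟩
  funext q
  rw [hf, LinearMap.funLeft_apply]
  exact (hw q).symm

theorem rk_le_card (Q : Finset ℕ) (A : Finset ℤ) : rk Q A ≤ Q.card := by
  refine (Submodule.finrank_le _).trans ?_
  rw [Module.finrank_fintype_fun_eq_card, Fintype.card_coe]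

/-- as many coordinates as the dimension detect the vectors of a subspace -/
theorem exists_coord {ι : Type*} [Fintype ι] (n : ℕ) : ∀ W : Submodule ℚ (ι → ℚ),
    Module.finrank ℚ W ≤ n → ∃ s : Finset ι, s.card ≤ Module.finrank ℚ W ∧
      ∀ w ∈ W, (∀ i ∈ s, w i = 0) → w = 0 := by
  induction n with
  | zero =>
    intro W hW
    have h0 : Module.finrank ℚ W = 0 := Nat.le_zero.1 hW
    refine ⟨∅, by simp, fun w hw _ => ?_⟩
    rw [Submodule.finrank_eq_zero] at h0
    rw [h0] at hw
    simpa using hw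
  | succ n ih =>
    intro W hW
    by_cases hb : W = ⊥
    · refine ⟨∅, by simp, fun w hw _ => ?_⟩
      rw [hb] at hw
      simpa using hw
    obtain ⟨w, hw, hw0⟩ := (Submodule.ne_bot_iff W).1 hb
    obtain ⟨i, hi⟩ : ∃ i, w i ≠ 0 := by
      by_contra hcon
      push Not at hcon
      exact hw0 (funext hcon)
    set W' : Submodule ℚ (ι → ℚ) := W ⊓ LinearMap.ker (LinearMap.proj (R := ℚ) (φ := fun _ : ι => ℚ) i) with hW'
    have hlt : W' < W := by
      refine lt_of_le_of_ne inf_le_left fun heq => ?_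
      have h1 : w ∈ W' := heq ▸ hw
      rw [hW', Submodule.mem_inf, LinearMap.mem_ker] at h1
      exact hi h1.2
    have hfl := Submodule.finrank_lt_finrank_of_lt hlt
    obtain ⟨s, hs, hs2⟩ := ih W' (by omega)
    refine ⟨insert i s, (Finset.card_insert_le _ _).trans (by omega), fun v hv hvs => ?_⟩
    refine hs2 v ?_ fun j hj => hvs j (Finset.mem_insert_of_mem hj)
    rw [hW', Submodule.mem_inf, LinearMap.mem_ker]
    exact ⟨hv, hvs i (Finset.mem_insert_self i s)⟩

theorem exists_dt2 (Q : Finset ℕ) (A : Finset ℤ) : ∃ P : Finset ℕ, P.card ≤ rk Q A ∧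
    Dt2 P Q A := by
  obtain ⟨s, hs, hs2⟩ := exists_coord _ (Submodule.span ℚ {w : Q → ℚ | ∃ x ∈ A, ∃ y ∈ A, ∀ q : Q,
    w q = (x.natAbs.factorization q : ℚ) - (y.natAbs.factorization q : ℚ)}) le_rfl
  refine ⟨s.map (Function.Embedding.subtype _), ?_, ?_, ?_⟩
  · rw [Finset.card_map]
    exact hs
  · intro q hq
    rw [Finset.mem_map] at hq
    obtain ⟨r, _, rfl⟩ := hq
    exact r.2
  · intro x hx y hy hxy q hq
    have h := hs2 (fun q : Q => (x.natAbs.factorization q : ℚ) - (y.natAbs.factorization q : ℚ))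
      (Submodule.subset_span ⟨x, hx, y, hy, fun q => rfl⟩) ?_
    · have h2 := congrFun h ⟨q, hq⟩
      have h3 : (x.natAbs.factorization q : ℚ) - (y.natAbs.factorization q : ℚ) = 0 := h2
      have h4 : (x.natAbs.factorization q : ℚ) = (y.natAbs.factorization q : ℚ) := sub_eq_zero.1 h3
      exact_mod_cast h4
    · intro i hi
      have h5 := hxy i.1 (Finset.mem_map_of_mem _ hi)
      have h6 : x.natAbs.factorization i.1 = y.natAbs.factorization i.1 := h5
      show (x.natAbs.factorization i.1 : ℚ) - (y.natAbs.factorization i.1 : ℚ) = 0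
      rw [h6, sub_self]

end Pool.Agent.T2H12.KI
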