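import Mathlib
import Pool.Agent.T2H12.KI.SumA2
import Pool.Agent.T2H12.KI.SumB2

/-!
# Sums: small and large primes together, dependent primes (package SUMC2)
-/

set_option autoImplicit false

namespace Pool.Agent.T2H12.KI

open Finset
open scoped Classical
open Pool.Agent.Y359.PE Pool.Agent.T2H12.KF Pool.Agent.T2H12.KD Pool.Agent.T2H12.KG
open Pool.Agent.T2H12.KH

/-- **All primes.** -/
theorem sumC2 {κ δ₁ : ℝ} (hκ : 0 < κ) (hδ₁ : 0 < δ₁) (M C : ℝ) :
    ∃ (K' : ℕ) (a₀ : ℝ), 0 < a₀ ∧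
    ∀ (A : Finset ℤ) (Q : Finset ℕ), A.Nonempty → (0 : ℤ) ∉ A → (∀ q ∈ Q, q.Prime) →
      a₀ ≤ Real.log A.card → (rk Q A : ℝ) ≤ C * Real.log A.card →
      h A (gq Q) ≤ (1 - κ) * Real.log A.card →
      ∀ V : Finset ℤ, V.Nonempty → Real.log V.card ≤ M * Real.log A.card →
        ∃ m : ℕ, 1 ≤ m ∧ m ≤ K' ∧ (1 - δ₁) * (Real.log A.card + Real.log V.card) ≤
          Real.log ((A ×ˢ V).image fun s => (m : ℤ) * s.1 + s.2).card := by
  obtain ⟨K, K1, a1, ha1, H1⟩ := sumA2 (half_pos hκ) hδ₁ M C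
  obtain ⟨K2, δ, a2, hδ, ha2, H2⟩ := sumB2 (half_pos hκ) hδ₁ M C
  refine ⟨max K1 K2, max (max a1 a2) (K / δ), lt_max_of_lt_left (lt_max_of_lt_left ha1), ?_⟩
  intro A Q hA h0 hQ ha hQc hent V hV hVc
  have b1 : a1 ≤ Real.log A.card := ((le_max_left _ _).trans (le_max_left _ _)).trans ha
  have b2 : a2 ≤ Real.log A.card := ((le_max_right _ _).trans (le_max_left _ _)).trans ha
  have b3 : (K : ℝ) / δ ≤ Real.log A.card := (le_max_right _ _).trans ha
  have b4 : (K : ℝ) ≤ δ * Real.log A.card := by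
    rw [div_le_iff₀ hδ] at b3
    linarith
  set L := Real.log A.card with hL
  have e1 := sumC_split h0 hQ K
  have e2 : ce A (gq Q) (gp (Q.filter (· < K))) =
      h A (gq (Q.filter (K ≤ ·))) - h A (gq Q) := by
    unfold ce
    rw [e1]
  by_cases hc : κ / 2 * L ≤ ce A (gq Q) (gp (Q.filter (· < K)))
  · have c1 : (Q.filter (· < K)).card ≤ K := by
      have : Q.filter (· < K) ⊆ range K := fun q hq => mem_range.2 (mem_filter.1 hq).2
      simpa using card_le_card this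
    have c2 : ((Q.filter (· < K)).card : ℝ) ≤ δ * L := le_trans (by exact_mod_cast c1) b4
    obtain ⟨P₁, hP₁, hdt⟩ := exists_dt2 Q A
    have c3 : (P₁.card : ℝ) ≤ C * L := le_trans (by exact_mod_cast hP₁) hQc
    obtain ⟨m, hm1, hm2, hm3⟩ := H2 A (Q.filter (· < K)) P₁ Q hA h0 hQ (filter_subset _ _) hdt
      b2 c2 c3 hc V hV hVc
    exact ⟨m, hm1, hm2.trans (le_max_right _ _), hm3⟩
  · have c3 : h A (gq (Q.filter (K ≤ ·))) ≤ (1 - κ / 2) * L := by
      push Not at hc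
      rw [e2] at hc
      nlinarith
    obtain ⟨P, hP, hdt⟩ := exists_dt2 (Q.filter (K ≤ ·)) A
    have c4 : (P.card : ℝ) ≤ C * L := by
      refine le_trans ?_ hQc
      exact_mod_cast hP.trans (rk_mono (filter_subset _ _) A)
    obtain ⟨m, hm1, hm2, hm3⟩ := H1 A P (Q.filter (K ≤ ·)) hA h0
      (fun q hq => ⟨hQ q (mem_filter.1 hq).1, (mem_filter.1 hq).2⟩) hdt b1 c4 c3 V hV hVc
    exact ⟨m, hm1, hm2.trans (le_max_left _ _), hm3⟩

end Pool.Agent.T2H12.KI
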